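import Mathlib

/-!
A small cost model (values together with the number of bit operations spent) and the algorithm.
-/

set_option autoImplicit false

namespace Pool.Agent.H13HP

/-- A value together with the number of bit operations spent on it. -/
structure Timed (α : Type) where
  val : α
  time : ℕ

/-- Bit operations charged for an addition or a multiplication of `x` and `y`: the product of the
numbers of binary digits, each increased by one. -/
def charge (x y : ℕ) : ℕ := (x.size + 1) * (y.size + 1)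

def tadd (x y : ℕ) : Timed ℕ := ⟨x + y, charge x y⟩

def tmul (x y : ℕ) : Timed ℕ := ⟨x * y, charge x y⟩

/-- appending `k` zeros to the binary expansion of `x` -/
def tshift (x k : ℕ) : Timed ℕ := ⟨x * 2 ^ k, x.size + k + 1⟩

def Timed.bind {α β : Type} (x : Timed α) (f : α → Timed β) : Timed β :=
  ⟨(f x.val).val, x.time + (f x.val).time⟩

/-- computing and storing a table -/
def Timed.table {k : ℕ} {α : Type} (f : Fin k → Timed α) : Timed (Fin k → α) :=
  ⟨fun i => (f i).val, ∑ i, ((f i).time + 1)⟩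

/-- adding up `k` numbers one after the other -/
def tsum : (k : ℕ) → (Fin k → Timed ℕ) → Timed ℕ
  | 0, _ => ⟨0, 1⟩
  | k + 1, f => (tsum k fun i => f i.castSucc).bind fun s => (f (Fin.last k)).bind fun x => tadd s x

/-- product of matrices -/
def tmat {n : ℕ} (M N : Fin n → Fin n → ℕ) : Timed (Fin n → Fin n → ℕ) :=
  Timed.table fun p => Timed.table fun q => tsum n fun r => tmul (M p r) (N r q)

/-- power of a matrix -/
def tpow {n : ℕ} (M : Fin n → Fin n → ℕ) : ℕ → Timed (Fin n → Fin n → ℕ)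
  | 0 => Timed.table fun p => Timed.table fun q => ⟨if p = q then 1 else 0, 1⟩
  | k + 1 => (tpow M k).bind fun P => tmat P M

/-- The algorithm; the input is the table of the zero patterns of the matrices. -/
def alg {m n : ℕ} (B : Fin m → Fin n → Fin n → Bool) : Timed (Fin m → ℕ) :=
  (Timed.table fun p => Timed.table fun q =>
    (tsum m fun i => ⟨(B i p q).toNat, 1⟩).bind fun s => tadd (if p = q then 1 else 0) s).bind
  fun M => (tpow M (2 * n - 1)).bind
  fun P => Timed.table fun i => (tmat (fun p q => (B i p q).toNat) P).bind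
  fun Q => (tsum n fun p => ⟨Q p p, 1⟩).bind
  fun t => (tmul (2 * n) t).bind
  fun x => tshift x (32 * m ^ 2 * n ^ 3)

theorem tsum_val (k : ℕ) (f : Fin k → Timed ℕ) : (tsum k f).val = ∑ i, (f i).val := by
  induction k with
  | zero => simp [tsum]
  | succ k ih =>
    rw [Fin.sum_univ_castSucc]
    show (tsum k fun i => f i.castSucc).val + (f (Fin.last k)).val = _
    rw [ih]

theorem tmat_val {n : ℕ} (M N : Fin n → Fin n → ℕ) :
    (tmat M N).val = ((Matrix.of M) * (Matrix.of N) : Matrix (Fin n) (Fin n) ℕ) := by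
  funext p q
  show (tsum n fun r => tmul (M p r) (N r q)).val = _
  rw [tsum_val, Matrix.mul_apply]
  rfl

theorem tpow_val {n : ℕ} (M : Fin n → Fin n → ℕ) (k : ℕ) :
    (tpow M k).val = ((Matrix.of M) ^ k : Matrix (Fin n) (Fin n) ℕ) := by
  induction k with
  | zero =>
    funext p q
    show (if p = q then 1 else 0) = _
    rw [pow_zero, Matrix.one_apply]
  | succ k ih =>
    show (tmat (tpow M k).val M).val = _
    rw [tmat_val, ih, pow_succ]
    rfl

/-- pattern matrix -/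
def bm {m n : ℕ} (B : Fin m → Fin n → Fin n → Bool) (i : Fin m) : Matrix (Fin n) (Fin n) ℕ :=
  Matrix.of fun p q => (B i p q).toNat

theorem alg_val {m n : ℕ} (B : Fin m → Fin n → Fin n → Bool) (i : Fin m) :
    (alg B).val i = 2 * n * Matrix.trace (bm B i * (1 + ∑ j, bm B j) ^ (2 * n - 1)) *
      2 ^ (32 * m ^ 2 * n ^ 3) := by
  let M : Fin n → Fin n → ℕ := fun p q => (if p = q then 1 else 0) +
    (tsum m fun i => ⟨(B i p q).toNat, 1⟩).val
  have hM : Matrix.of M = 1 + ∑ j, bm B j := by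
    ext p q
    show (if p = q then 1 else 0) + (tsum m fun i => ⟨(B i p q).toNat, 1⟩).val = _
    rw [tsum_val, Matrix.add_apply, Matrix.one_apply, Matrix.sum_apply]
    rfl
  have h1 : (alg B).val i = (2 * n * (tsum n fun p =>
      ⟨(tmat (fun p q => (B i p q).toNat) (tpow M (2 * n - 1)).val).val p p, 1⟩).val) *
      2 ^ (32 * m ^ 2 * n ^ 3) := rfl
  rw [h1, tsum_val]
  congr 2
  rw [tmat_val, tpow_val, hM]
  rfl

/-! ### Running time -/

theorem charge_le {x y z : ℕ} (hx : x < 2 ^ z) (hy : y < 2 ^ z) : charge x y ≤ (z + 1) ^ 2 := by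
  unfold charge
  rw [sq]
  exact Nat.mul_le_mul (Nat.succ_le_succ (Nat.size_le.mpr hx)) (Nat.succ_le_succ (Nat.size_le.mpr hy))

theorem tsum_time (k : ℕ) (f : Fin k → Timed ℕ) (z t : ℕ) (h : ∑ i, (f i).val < 2 ^ z)
    (ht : ∀ i, (f i).time ≤ t) : (tsum k f).time ≤ 1 + k * (t + (z + 1) ^ 2) := by
  induction k with
  | zero => simp [tsum]
  | succ k ih =>
    rw [Fin.sum_univ_castSucc] at h
    have h1 := ih (fun i => f i.castSucc) (by omega) (fun i => ht _)
    have h2 : (tsum (k + 1) f).time = (tsum k fun i => f i.castSucc).time +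
        ((f (Fin.last k)).time +
          charge (tsum k fun i => f i.castSucc).val (f (Fin.last k)).val) := rfl
    have h3 : charge (tsum k fun i => f i.castSucc).val (f (Fin.last k)).val ≤ (z + 1) ^ 2 := by
      apply charge_le
      · rw [tsum_val]; omega
      · omega
    rw [h2]
    have h4 := ht (Fin.last k)
    have e : (k + 1) * (t + (z + 1) ^ 2) = k * (t + (z + 1) ^ 2) + (t + (z + 1) ^ 2) := by ring
    omega

theorem table_time {k : ℕ} {α : Type} (f : Fin k → Timed α) (t : ℕ) (ht : ∀ i, (f i).time ≤ t) :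
    (Timed.table f).time ≤ k * (t + 1) := by
  show ∑ i, ((f i).time + 1) ≤ _
  refine (Finset.sum_le_card_nsmul _ _ (t + 1) fun i _ => Nat.succ_le_succ (ht i)).trans ?_
  simp

theorem tmat_time {n : ℕ} (M N : Fin n → Fin n → ℕ) (z : ℕ) (hM : ∀ p q, M p q < 2 ^ z)
    (hN : ∀ p q, N p q < 2 ^ z)
    (hMN : ∀ p q, ((Matrix.of M) * (Matrix.of N) : Matrix (Fin n) (Fin n) ℕ) p q < 2 ^ z) :
    (tmat M N).time ≤ n * (n * (1 + n * ((z + 1) ^ 2 + (z + 1) ^ 2) + 1) + 1) := by
  unfold tmat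
  refine table_time _ _ fun p => table_time _ _ fun q => tsum_time _ _ z _ ?_ ?_
  · have := hMN p q
    rw [Matrix.mul_apply] at this
    exact this
  · intro r
    exact charge_le (hM _ _) (hN _ _)

theorem tpow_time {n : ℕ} (M : Fin n → Fin n → ℕ) (z k : ℕ) (hM : ∀ p q, M p q < 2 ^ z)
    (hk : ∀ j ≤ k, ∀ p q, ((Matrix.of M) ^ j : Matrix (Fin n) (Fin n) ℕ) p q < 2 ^ z) :
    (tpow M k).time ≤ n * (n * (1 + 1) + 1) +
      k * (n * (n * (1 + n * ((z + 1) ^ 2 + (z + 1) ^ 2) + 1) + 1)) := by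
  induction k with
  | zero =>
    rw [zero_mul, add_zero]
    exact table_time _ _ fun p => table_time _ _ fun q => le_rfl
  | succ k ih =>
    have h1 := ih fun j hj => hk j (Nat.le_succ_of_le hj)
    have h2 : (tpow M (k + 1)).time = (tpow M k).time + (tmat (tpow M k).val M).time := rfl
    have h3 := tmat_time (tpow M k).val M z (by
      intro p q; rw [tpow_val]; exact hk k (Nat.le_succ k) p q) hM (by
      intro p q
      have := hk (k + 1) le_rfl p q
      rw [pow_succ] at this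
      rw [tpow_val]
      exact this)
    rw [h2]
    have e : ∀ x : ℕ, (k + 1) * x = k * x + x := fun x => by ring
    rw [e]
    omega

theorem pow_entry {n : ℕ} (P : Matrix (Fin n) (Fin n) ℕ) (c : ℕ) (hP : ∀ p q, P p q ≤ c)
    (k : ℕ) (p q : Fin n) : (P ^ k) p q ≤ (n * c) ^ k := by
  induction k generalizing q with
  | zero =>
    rw [pow_zero, pow_zero, Matrix.one_apply]
    split_ifs <;> simp
  | succ k ih =>
    rw [pow_succ, Matrix.mul_apply]
    refine (Finset.sum_le_card_nsmul _ _ ((n * c) ^ k * c) fun r _ =>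
      Nat.mul_le_mul (ih r) (hP r q)).trans (le_of_eq ?_)
    rw [Finset.card_univ, Fintype.card_fin, smul_eq_mul, pow_succ]
    ring

theorem alg_time {m n : ℕ} (B : Fin m → Fin n → Fin n → Bool) (hm : 1 ≤ m) (hn : 1 ≤ n) :
    (alg B).time ≤ 1000 * (m + n) ^ 8 := by
  set N := m + n with hN
  set z := N * (2 * n + 3) with hz
  let M : Fin n → Fin n → ℕ := fun p q => (if p = q then 1 else 0) +
    (tsum m fun i => ⟨(B i p q).toNat, 1⟩).val
  have hbm : ∀ i p q, (B i p q).toNat ≤ 1 := fun i p q => Bool.toNat_le _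
  have hsB : ∀ p q, ∑ i : Fin m, (B i p q).toNat ≤ m := by
    intro p q
    refine (Finset.sum_le_card_nsmul _ _ 1 fun i _ => hbm i p q).trans ?_
    simp
  have hMle : ∀ p q, M p q ≤ m + 1 := by
    intro p q
    show (if p = q then 1 else 0) + (tsum m fun i => ⟨(B i p q).toNat, 1⟩).val ≤ _
    rw [tsum_val]
    have := hsB p q
    split_ifs <;> simp only [] <;> omega
  have hm2 : m + 1 ≤ 2 ^ m := Nat.lt_two_pow_self
  have hn2 : n + 1 ≤ 2 ^ n := Nat.lt_two_pow_self
  have hnm : n * (m + 1) ≤ 2 ^ N := by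
    rw [hN, pow_add, mul_comm]
    exact Nat.mul_le_mul hm2 (by omega)
  have hpow : ∀ k p q, ((Matrix.of M) ^ k : Matrix (Fin n) (Fin n) ℕ) p q ≤ 2 ^ (N * k) := by
    intro k p q
    refine (pow_entry (Matrix.of M) (m + 1) hMle k p q).trans ?_
    rw [pow_mul]
    exact Nat.pow_le_pow_left hnm k
  have hNz : N * (2 * n - 1) + 4 * N = z := by
    have h : 2 * n + 3 = (2 * n - 1) + 4 := by omega
    rw [hz, h, Nat.mul_add N (2 * n - 1) 4, Nat.mul_comm N 4]
  have h2z : ∀ e, e < z → (2 : ℕ) ^ e < 2 ^ z := fun e he => Nat.pow_lt_pow_right (by norm_num) he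
  have hN1 : 2 ≤ N := by omega
  have hpowz : ∀ j ≤ 2 * n - 1, ∀ p q,
      ((Matrix.of M) ^ j : Matrix (Fin n) (Fin n) ℕ) p q < 2 ^ z := by
    intro j hj p q
    refine lt_of_le_of_lt (hpow j p q) (h2z _ ?_)
    have : N * j ≤ N * (2 * n - 1) := Nat.mul_le_mul_left _ hj
    omega
  have hMz : ∀ p q, M p q < 2 ^ z := by
    intro p q
    refine lt_of_le_of_lt ((hMle p q).trans hm2) (h2z _ ?_)
    omega
  have hBz : ∀ i p q, (B i p q).toNat < 2 ^ z := by
    intro i p q
    refine lt_of_le_of_lt (hbm i p q) ?_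
    exact Nat.one_lt_two_pow (by omega)
  set P := (tpow M (2 * n - 1)).val with hP
  have hPe : ∀ p q, P p q ≤ 2 ^ (N * (2 * n - 1)) := by
    intro p q; rw [hP, tpow_val]; exact hpow _ p q
  have hPz : ∀ p q, P p q < 2 ^ z := by
    intro p q
    refine lt_of_le_of_lt (hPe p q) (h2z _ ?_)
    omega
  have hQe : ∀ i p q, (Matrix.of (fun p q => (B i p q).toNat) * Matrix.of P :
      Matrix (Fin n) (Fin n) ℕ) p q ≤ n * 2 ^ (N * (2 * n - 1)) := by
    intro i p q
    rw [Matrix.mul_apply]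
    refine (Finset.sum_le_card_nsmul _ _ (1 * 2 ^ (N * (2 * n - 1))) fun r _ =>
      Nat.mul_le_mul (hbm i p r) (hPe r q)).trans (le_of_eq ?_)
    simp
  have hnn : n ≤ 2 ^ N := by
    have : (2 : ℕ) ^ n ≤ 2 ^ N := Nat.pow_le_pow_right (by norm_num) (by omega)
    omega
  have hQz : ∀ i p q, (Matrix.of (fun p q => (B i p q).toNat) * Matrix.of P :
      Matrix (Fin n) (Fin n) ℕ) p q < 2 ^ z := by
    intro i p q
    refine lt_of_le_of_lt (hQe i p q) ?_
    calc n * 2 ^ (N * (2 * n - 1)) ≤ 2 ^ N * 2 ^ (N * (2 * n - 1)) := Nat.mul_le_mul_right _ hnn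
      _ = 2 ^ (N + N * (2 * n - 1)) := (pow_add 2 N _).symm
      _ < 2 ^ z := h2z _ (by omega)
  have htr : ∀ i, ∑ p, (tmat (fun p q => (B i p q).toNat) P).val p p ≤
      2 ^ (2 * N + N * (2 * n - 1)) := by
    intro i
    rw [tmat_val]
    refine (Finset.sum_le_card_nsmul _ _ _ fun p _ => hQe i p p).trans ?_
    rw [Finset.card_univ, Fintype.card_fin, smul_eq_mul]
    calc n * (n * 2 ^ (N * (2 * n - 1))) ≤ 2 ^ N * (2 ^ N * 2 ^ (N * (2 * n - 1))) :=
          Nat.mul_le_mul hnn (Nat.mul_le_mul_right _ hnn)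
      _ = 2 ^ (2 * N + N * (2 * n - 1)) := by rw [← pow_add, ← pow_add]; congr 1; ring
  -- the time
  have e0 : (alg B).time = (Timed.table fun p => Timed.table fun q =>
      (tsum m fun i => ⟨(B i p q).toNat, 1⟩).bind fun s =>
        tadd (if p = q then 1 else 0) s : Timed (Fin n → Fin n → ℕ)).time +
      ((tpow M (2 * n - 1)).time + (Timed.table fun i =>
        (tmat (fun p q => (B i p q).toNat) P).bind fun Q => (tsum n fun p => ⟨Q p p, 1⟩).bind
          fun t => (tmul (2 * n) t).bind fun x => tshift x (32 * m ^ 2 * n ^ 3)).time) := rfl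
  set Z := (z + 1) ^ 2 with hZ
  have t1 : (Timed.table fun p => Timed.table fun q =>
      (tsum m fun i => ⟨(B i p q).toNat, 1⟩).bind fun s =>
        tadd (if p = q then 1 else 0) s : Timed (Fin n → Fin n → ℕ)).time ≤
      n * (n * ((1 + m * (1 + Z)) + Z + 1) + 1) := by
    refine table_time _ _ fun p => table_time _ _ fun q => ?_
    show (tsum m fun i => ⟨(B i p q).toNat, 1⟩).time + charge (if p = q then 1 else 0)
      (tsum m fun i => ⟨(B i p q).toNat, 1⟩).val ≤ _
    have hs : ∑ i : Fin m, (B i p q).toNat < 2 ^ z := by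
      refine lt_of_le_of_lt (hsB p q) ?_
      refine lt_of_lt_of_le (Nat.lt_succ_self m) (hm2.trans (Nat.pow_le_pow_right (by norm_num) ?_))
      omega
    refine Nat.add_le_add (tsum_time _ _ z 1 hs fun i => le_rfl) (charge_le ?_ ?_)
    · split_ifs
      · exact Nat.one_lt_two_pow (by omega)
      · positivity
    · rw [tsum_val]; exact hs
  have t2 := tpow_time M z (2 * n - 1) hMz hpowz
  have t3 : (Timed.table fun i =>
        (tmat (fun p q => (B i p q).toNat) P).bind fun Q => (tsum n fun p => ⟨Q p p, 1⟩).bind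
          fun t => (tmul (2 * n) t).bind fun x => tshift x (32 * m ^ 2 * n ^ 3)).time ≤
      m * (n * (n * (1 + n * (Z + Z) + 1) + 1) + ((1 + n * (1 + Z)) +
        (Z + (z + 1 + 32 * m ^ 2 * n ^ 3 + 1))) + 1) := by
    refine table_time _ _ fun i => ?_
    set Q := (tmat (fun p q => (B i p q).toNat) P).val with hQ
    show (tmat (fun p q => (B i p q).toNat) P).time + ((tsum n fun p => ⟨Q p p, 1⟩).time +
      (charge (2 * n) (tsum n fun p => ⟨Q p p, 1⟩).val +
        ((2 * n * (tsum n fun p => ⟨Q p p, 1⟩).val).size + 32 * m ^ 2 * n ^ 3 + 1))) ≤ _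
    have hs : ∑ p, Q p p < 2 ^ z := lt_of_le_of_lt (htr i) (h2z _ (by omega))
    have h2n : 2 * n ≤ 2 ^ (2 * N) := by
      calc 2 * n ≤ 2 ^ N * 2 ^ N := Nat.mul_le_mul (by
            calc 2 = 2 ^ 1 := by norm_num
              _ ≤ 2 ^ N := Nat.pow_le_pow_right (by norm_num) (by omega)) hnn
        _ = 2 ^ (2 * N) := by rw [← pow_add]; congr 1; ring
    have h2nt : 2 * n * ∑ p, Q p p ≤ 2 ^ z := by
      calc 2 * n * ∑ p, Q p p ≤ 2 ^ (2 * N) * 2 ^ (2 * N + N * (2 * n - 1)) :=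
            Nat.mul_le_mul h2n (htr i)
        _ = 2 ^ z := by rw [← pow_add]; congr 1; omega
    refine Nat.add_le_add (tmat_time _ _ z (hBz i) hPz (hQz i)) (Nat.add_le_add
      (tsum_time _ _ z 1 hs fun p => le_rfl) (Nat.add_le_add (charge_le ?_ ?_) ?_))
    · exact lt_of_le_of_lt h2n (h2z _ (by omega))
    · rw [tsum_val]; exact hs
    · rw [tsum_val]
      have hsz : (2 * n * ∑ p, Q p p).size ≤ z + 1 := Nat.size_le.mpr
        (lt_of_le_of_lt h2nt (Nat.pow_lt_pow_right (by norm_num) (Nat.lt_succ_self z)))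
      exact Nat.add_le_add_right (Nat.add_le_add_right hsz _) 1
  rw [e0]
  have hmN : m ≤ N := by omega
  have hnN : n ≤ N := by omega
  have hzN : z ≤ 3 * N ^ 2 := by
    rw [hz]
    calc N * (2 * n + 3) ≤ N * (3 * N) := Nat.mul_le_mul_left _ (by omega)
      _ = 3 * N ^ 2 := by ring
  have hN2 : 1 ≤ N ^ 2 := Nat.one_le_pow _ _ (by omega)
  have hZN : Z ≤ 16 * N ^ 4 := by
    rw [hZ]
    calc (z + 1) ^ 2 ≤ (4 * N ^ 2) ^ 2 := Nat.pow_le_pow_left (by omega) 2
      _ = 16 * N ^ 4 := by ring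
  have hE : 32 * m ^ 2 * n ^ 3 ≤ 32 * N ^ 5 := by
    calc 32 * m ^ 2 * n ^ 3 ≤ 32 * N ^ 2 * N ^ 3 := by gcongr
      _ = 32 * N ^ 5 := by ring
  have h2n1 : 2 * n - 1 ≤ 2 * N := by omega
  have u1 : n * (n * ((1 + m * (1 + Z)) + Z + 1) + 1) ≤
      N * (N * ((1 + N * (1 + 16 * N ^ 4)) + 16 * N ^ 4 + 1) + 1) := by gcongr
  have u2 : n * (n * (1 + 1) + 1) + (2 * n - 1) * (n * (n * (1 + n * (Z + Z) + 1) + 1)) ≤
      N * (N * (1 + 1) + 1) + (2 * N) *
        (N * (N * (1 + N * (16 * N ^ 4 + 16 * N ^ 4) + 1) + 1)) := by gcongr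
  have u3 : m * (n * (n * (1 + n * (Z + Z) + 1) + 1) + ((1 + n * (1 + Z)) +
        (Z + (z + 1 + 32 * m ^ 2 * n ^ 3 + 1))) + 1) ≤
      N * (N * (N * (1 + N * (16 * N ^ 4 + 16 * N ^ 4) + 1) + 1) + ((1 + N * (1 + 16 * N ^ 4)) +
        (16 * N ^ 4 + (3 * N ^ 2 + 1 + 32 * N ^ 5 + 1))) + 1) := by
    gcongr
  have hfin : N * (N * ((1 + N * (1 + 16 * N ^ 4)) + 16 * N ^ 4 + 1) + 1) +
      (N * (N * (1 + 1) + 1) + (2 * N) *
        (N * (N * (1 + N * (16 * N ^ 4 + 16 * N ^ 4) + 1) + 1)) +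
      N * (N * (N * (1 + N * (16 * N ^ 4 + 16 * N ^ 4) + 1) + 1) + ((1 + N * (1 + 16 * N ^ 4)) +
        (16 * N ^ 4 + (3 * N ^ 2 + 1 + 32 * N ^ 5 + 1))) + 1)) ≤ 1000 * N ^ 8 := by
    have g : ∀ k : ℕ, (k + 1) * ((k + 1) * ((1 + (k + 1) * (1 + 16 * (k + 1) ^ 4)) + 16 * (k + 1) ^ 4 + 1) + 1) +
      ((k + 1) * ((k + 1) * (1 + 1) + 1) + (2 * (k + 1)) *
        ((k + 1) * ((k + 1) * (1 + (k + 1) * (16 * (k + 1) ^ 4 + 16 * (k + 1) ^ 4) + 1) + 1)) +
      (k + 1) * ((k + 1) * ((k + 1) * (1 + (k + 1) * (16 * (k + 1) ^ 4 + 16 * (k + 1) ^ 4) + 1) + 1) + ((1 + (k + 1) * (1 + 16 * (k + 1) ^ 4)) +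
        (16 * (k + 1) ^ 4 + (3 * (k + 1) ^ 2 + 1 + 32 * (k + 1) ^ 5 + 1))) + 1)) ≤ 1000 * (k + 1) ^ 8 := by
      intro k
      ring_nf
      omega
    have := g (N - 1)
    rwa [Nat.sub_add_cancel (by omega : 1 ≤ N)] at this
  calc _ ≤ n * (n * ((1 + m * (1 + Z)) + Z + 1) + 1) +
      (n * (n * (1 + 1) + 1) + (2 * n - 1) * (n * (n * (1 + n * (Z + Z) + 1) + 1)) +
      m * (n * (n * (1 + n * (Z + Z) + 1) + 1) + ((1 + n * (1 + Z)) +
        (Z + (z + 1 + 32 * m ^ 2 * n ^ 3 + 1))) + 1)) := Nat.add_le_add t1 (Nat.add_le_add t2 t3)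
    _ ≤ _ := Nat.add_le_add u1 (Nat.add_le_add u2 u3)
    _ ≤ _ := hfin

end Pool.Agent.H13HP
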