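import Mathlib

/-!
Small integer solutions of systems of linear equations: if `∑ c j • a j = b` has an integer
solution, then it has one with explicitly bounded entries (Cramer's rule for the Gram matrix of a
maximal linearly independent subfamily).
-/

set_option autoImplicit false

namespace Pool.Agent.H13HP

open scoped Nat
open Matrix

section

variable {J ι : Type*} [Fintype J] [DecidableEq J] [Fintype ι]

/-- scalar product -/
def dot (x y : ι → ℤ) : ℤ := ∑ i, x i * y i

theorem dot_sum_right {K : Type*} (s : Finset K) (x : ι → ℤ) (c : K → ℤ) (a : K → ι → ℤ) :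
    dot x (∑ j ∈ s, c j • a j) = ∑ j ∈ s, c j * dot x (a j) := by
  unfold dot
  simp only [Finset.sum_apply, Pi.smul_apply, smul_eq_mul, Finset.mul_sum]
  rw [Finset.sum_comm]
  exact Finset.sum_congr rfl fun j _ => Finset.sum_congr rfl fun i _ => by ring

theorem dot_abs (x y : ι → ℤ) (B C : ℤ) (hB : ∀ i, |x i| ≤ B) (hC : ∀ i, |y i| ≤ C)
    (hB0 : 0 ≤ B) : |dot x y| ≤ (Fintype.card ι : ℤ) * (B * C) := by
  unfold dot
  refine (Finset.abs_sum_le_sum_abs _ _).trans ?_
  have : ∀ i ∈ (Finset.univ : Finset ι), |x i * y i| ≤ B * C := by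
    intro i _
    rw [abs_mul]
    exact mul_le_mul (hB i) (hC i) (abs_nonneg _) hB0
  refine (Finset.sum_le_card_nsmul _ _ _ this).trans ?_
  simp

theorem small_solution (a : J → ι → ℤ) (B : ℤ) (hB : ∀ j i, |a j i| ≤ B) (hB1 : 1 ≤ B)
    (b : ι → ℤ) (hb : ∀ i, |b i| ≤ B) (hm : 1 ≤ Fintype.card ι) (hk : 1 ≤ Fintype.card J)
    (c0 : J → ℤ) (hc0 : ∑ j, c0 j • a j = b)
    (X : ℤ) (hX : X = (Fintype.card J)! * ((Fintype.card ι : ℤ) * (B * B)) ^ Fintype.card J) :
    ∃ c : J → ℤ, ∑ j, c j • a j = b ∧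
      ∀ j, |c j| ≤ 2 * (Fintype.card J : ℤ) ^ 2 * (Fintype.card ι : ℤ) * B ^ 2 * X ^ 2 := by
  classical
  set k := Fintype.card J with hkdef
  set m : ℤ := (Fintype.card ι : ℤ) with hmdef
  have hm1 : (1 : ℤ) ≤ m := by rw [hmdef]; exact_mod_cast hm
  have hk1 : (1 : ℤ) ≤ (k : ℤ) := by exact_mod_cast hk
  have hBB : (1 : ℤ) ≤ m * (B * B) := by nlinarith [mul_le_mul hB1 hB1 (by norm_num) (by linarith)]
  have hX1 : 1 ≤ X := by
    rw [hX]
    have h1 : (1 : ℤ) ≤ (k ! : ℤ) := by exact_mod_cast Nat.one_le_iff_ne_zero.mpr (Nat.factorial_ne_zero k)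
    have h2 : (1 : ℤ) ≤ (m * (B * B)) ^ k := one_le_pow₀ hBB
    nlinarith
  -- maximal independent subset
  obtain ⟨I, hI, hmax⟩ : ∃ I : Finset J, LinearIndepOn ℤ a (I : Set J) ∧
      ∀ j, j ∉ I → ¬ LinearIndepOn ℤ a ((insert j I : Finset J) : Set J) := by
    let F : Finset (Finset J) := Finset.univ.filter fun I => LinearIndepOn ℤ a (I : Set J)
    have hne : F.Nonempty := ⟨∅, by simp [F]⟩
    obtain ⟨I, hIF, hImax⟩ := F.exists_max_image Finset.card hne
    refine ⟨I, by simpa [F] using hIF, fun j hj hj2 => ?_⟩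
    have := hImax (insert j I) (by simpa [F] using hj2)
    rw [Finset.card_insert_of_notMem hj] at this
    omega
  have hI' : ∀ f : J → ℤ, ∑ i ∈ I, f i • a i = 0 → ∀ i ∈ I, f i = 0 := by
    rw [linearIndepOn_finset_iff] at hI
    exact hI
  -- Gram matrix
  let G : Matrix I I ℤ := Matrix.of fun x y => dot (a x) (a y)
  have hG : ∀ x y, G x y = dot (a x) (a y) := fun x y => rfl
  have hdet : G.det ≠ 0 := by
    intro h0
    obtain ⟨v, hv, hGv⟩ := Matrix.exists_mulVec_eq_zero_iff.mpr h0
    let f : J → ℤ := fun j => if h : j ∈ I then v ⟨j, h⟩ else 0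
    let w : ι → ℤ := ∑ j ∈ I, f j • a j
    have hw1 : ∀ x : I, dot (a x) w = 0 := by
      intro x
      have h1 := congrFun hGv x
      simp only [Matrix.mulVec, dotProduct, Pi.zero_apply] at h1
      show dot (a x) (∑ j ∈ I, f j • a j) = 0
      rw [dot_sum_right, ← Finset.sum_attach, ← h1]
      rw [Finset.univ_eq_attach]
      refine Finset.sum_congr rfl fun y _ => ?_
      rw [hG]
      simp [f, mul_comm]
    have hw2 : dot w w = 0 := by
      have : dot w w = dot w (∑ j ∈ I, f j • a j) := rfl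
      rw [this, dot_sum_right]
      refine Finset.sum_eq_zero fun j hj => ?_
      have := hw1 ⟨j, hj⟩
      have hcomm : dot w (a j) = dot (a j) w := by
        unfold dot; exact Finset.sum_congr rfl fun i _ => mul_comm _ _
      rw [hcomm, this, mul_zero]
    have hw3 : w = 0 := by
      funext i
      unfold dot at hw2
      have := (Finset.sum_eq_zero_iff_of_nonneg (fun i _ => mul_self_nonneg (w i))).mp hw2 i
        (Finset.mem_univ i)
      simpa using this
    have hf := hI' f hw3
    apply hv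
    funext x
    have := hf x.1 x.2
    simpa [f] using this
  set Δ := G.det with hΔ
  -- entries of the Gram matrix
  have hGle : ∀ x y, |G x y| ≤ m * (B * B) := fun x y => dot_abs _ _ B B (hB _) (hB _) (by linarith)
  have hcardI : Fintype.card I ≤ k := by
    rw [Fintype.card_coe]
    exact Finset.card_le_univ I
  have hXge : ∀ M : Matrix I I ℤ, (∀ x y, |M x y| ≤ m * (B * B)) → |M.det| ≤ X := by
    intro M hM
    have h := Matrix.det_le (abv := AbsoluteValue.abs) (x := m * (B * B)) (A := M) hM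
    have h' : |M.det| ≤ ((Fintype.card I)! : ℤ) * (m * (B * B)) ^ Fintype.card I := by
      simpa [nsmul_eq_mul] using h
    refine h'.trans ?_
    rw [hX]
    have e1 : ((Fintype.card I)! : ℤ) ≤ (k ! : ℤ) := by exact_mod_cast Nat.factorial_le hcardI
    have e2 : (m * (B * B)) ^ Fintype.card I ≤ (m * (B * B)) ^ k := pow_le_pow_right₀ hBB hcardI
    exact mul_le_mul e1 e2 (by positivity) (by positivity)
  have hΔle : |Δ| ≤ X := hXge G hGle
  have hadj : ∀ x y, |G.adjugate x y| ≤ X := by
    intro x y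
    rw [Matrix.adjugate_apply]
    refine hXge _ fun u v => ?_
    rw [Matrix.updateRow_apply]
    split_ifs with h
    · by_cases hvx : v = x
      · subst hvx; simp; exact hBB
      · rw [Pi.single_eq_of_ne hvx]; simp; linarith
    · exact hGle u v
  -- relations
  have hrel : ∀ j, j ∉ I → Δ • a j =
      ∑ x : I, (G.adjugate *ᵥ fun y : I => dot (a y) (a j)) x • a x := by
    intro j hj
    have h1 := hmax j hj
    rw [linearIndepOn_finset_iff] at h1
    push Not at h1
    obtain ⟨f, hf1, i0, hi0, hfi0⟩ := h1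
    rw [Finset.sum_insert hj] at hf1
    have hfj : f j ≠ 0 := by
      intro h0
      rw [h0, zero_smul, zero_add] at hf1
      rcases Finset.mem_insert.mp hi0 with rfl | h
      · exact hfi0 h0
      · exact hfi0 (hI' f hf1 i0 h)
    let e : I → ℤ := fun x => - f x
    have he : f j • a j = ∑ x : I, e x • a x := by
      have h2 : ∑ x : I, e x • a x = - ∑ i ∈ I, f i • a i := by
        rw [← Finset.sum_attach I (fun i => f i • a i), ← Finset.univ_eq_attach, ← Finset.sum_neg_distrib]
        exact Finset.sum_congr rfl fun x _ => by simp [e]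
      rw [h2]
      exact eq_neg_of_add_eq_zero_left hf1
    have hGe : G *ᵥ e = fun y : I => f j * dot (a y) (a j) := by
      funext y
      have h3 : dot (a y) (f j • a j) = f j * dot (a y) (a j) := by
        unfold dot; rw [Finset.mul_sum]
        exact Finset.sum_congr rfl fun i _ => by simp; ring
      rw [← h3, he, dot_sum_right]
      simp only [Matrix.mulVec, dotProduct]
      exact Finset.sum_congr rfl fun x _ => by rw [hG]; ring
    have hadjG : Δ • e = f j • (G.adjugate *ᵥ fun y : I => dot (a y) (a j)) := by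
      have h4 : G.adjugate *ᵥ (G *ᵥ e) = Δ • e := by
        rw [Matrix.mulVec_mulVec, Matrix.adjugate_mul, Matrix.smul_mulVec, Matrix.one_mulVec]
      rw [← h4, hGe, ← Matrix.mulVec_smul]
      congr 1
    have h5 : f j • (Δ • a j) =
        f j • ∑ x : I, (G.adjugate *ᵥ fun y : I => dot (a y) (a j)) x • a x := by
      rw [smul_comm, he, Finset.smul_sum, Finset.smul_sum]
      refine Finset.sum_congr rfl fun x _ => ?_
      have := congrFun hadjG x
      simp only [Pi.smul_apply, smul_eq_mul] at this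
      rw [smul_smul, smul_smul, this]
    funext i
    have := congrFun h5 i
    simp only [Pi.smul_apply, smul_eq_mul] at this
    have h6 := mul_left_cancel₀ hfj this
    simpa using h6
  -- the new coefficients
  let q : J → I → ℤ := fun j => G.adjugate *ᵥ fun y : I => dot (a y) (a j)
  let c : J → ℤ := fun j => if h : j ∈ I then
      c0 j + ∑ j' ∈ Iᶜ, (c0 j' / Δ) * q j' ⟨j, h⟩ else c0 j % Δ
  have hcin : ∀ x : I, c x = c0 x + ∑ j' ∈ Iᶜ, (c0 j' / Δ) * q j' x := by
    intro x; simp [c]
  have hcout : ∀ j, j ∉ I → c j = c0 j % Δ := by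
    intro j hj; simp [c, hj]
  have hsum : ∑ j, c j • a j = b := by
    rw [← hc0, ← Finset.sum_add_sum_compl I, ← Finset.sum_add_sum_compl I (fun j => c0 j • a j)]
    have e1 : ∑ i ∈ I, c i • a i = ∑ i ∈ I, c0 i • a i +
        ∑ j' ∈ Iᶜ, (c0 j' / Δ) • (Δ • a j') := by
      have : ∀ j' ∈ Iᶜ, (c0 j' / Δ) • (Δ • a j') = ∑ x : I, ((c0 j' / Δ) * q j' x) • a x := by
        intro j' hj'
        rw [hrel j' (Finset.mem_compl.mp hj'), Finset.smul_sum]
        exact Finset.sum_congr rfl fun x _ => by rw [smul_smul]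
      rw [Finset.sum_congr rfl this, Finset.sum_comm]
      rw [← Finset.sum_attach I (fun i => c i • a i), ← Finset.sum_attach I (fun i => c0 i • a i),
        ← Finset.univ_eq_attach, ← Finset.sum_add_distrib]
      refine Finset.sum_congr rfl fun x _ => ?_
      rw [hcin, add_smul, Finset.sum_smul]
    rw [e1, add_assoc, ← Finset.sum_add_distrib]
    congr 1
    refine Finset.sum_congr rfl fun j hj => ?_
    rw [hcout j (Finset.mem_compl.mp hj), smul_smul, ← add_smul]
    congr 1
    exact Int.ediv_mul_add_emod _ _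
  refine ⟨c, hsum, ?_⟩
  -- bounds
  have hout : ∀ j, j ∉ I → |c j| ≤ X := by
    intro j hj
    rw [hcout j hj, abs_of_nonneg (Int.emod_nonneg _ hdet)]
    exact ((Int.emod_lt_abs _ hdet).le).trans hΔle
  let h : I → ℤ := fun x => dot (a x) (b - ∑ j ∈ Iᶜ, c j • a j)
  have hGc : G *ᵥ (fun x : I => c x) = h := by
    funext y
    have : b - ∑ j ∈ Iᶜ, c j • a j = ∑ j ∈ I, c j • a j := by
      rw [← hsum, ← Finset.sum_add_sum_compl I]; abel
    show _ = dot (a y) (b - ∑ j ∈ Iᶜ, c j • a j)
    rw [this, dot_sum_right, ← Finset.sum_attach, ← Finset.univ_eq_attach]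
    simp only [Matrix.mulVec, dotProduct]
    exact Finset.sum_congr rfl fun x _ => by rw [hG]; ring
  have hvec : ∀ i, |(b - ∑ j ∈ Iᶜ, c j • a j) i| ≤ B + k * (X * B) := by
    intro i
    simp only [Pi.sub_apply, Finset.sum_apply, Pi.smul_apply, smul_eq_mul]
    refine (abs_sub _ _).trans (add_le_add (hb i) ?_)
    refine (Finset.abs_sum_le_sum_abs _ _).trans ?_
    have : ∀ j ∈ Iᶜ, |c j * a j i| ≤ X * B := by
      intro j hj
      rw [abs_mul]
      exact mul_le_mul (hout j (Finset.mem_compl.mp hj)) (hB j i) (abs_nonneg _) (by linarith)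
    refine (Finset.sum_le_card_nsmul _ _ _ this).trans ?_
    rw [nsmul_eq_mul]
    have hc : ((Iᶜ).card : ℤ) ≤ k := by exact_mod_cast Finset.card_le_univ _
    exact mul_le_mul_of_nonneg_right hc (by positivity)
  have hh : ∀ x, |h x| ≤ m * (B * (B + k * (X * B))) := fun x =>
    dot_abs _ _ B _ (hB _) hvec (by linarith)
  have hin : ∀ x : I, |c x| ≤ k * (X * (m * (B * (B + k * (X * B))))) := by
    intro x
    have e1 : Δ * c x = ∑ y : I, G.adjugate x y * h y := by
      have h4 : G.adjugate *ᵥ (G *ᵥ fun x : I => c x) = Δ • (fun x : I => c x) := by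
        rw [Matrix.mulVec_mulVec, Matrix.adjugate_mul, Matrix.smul_mulVec, Matrix.one_mulVec]
      rw [hGc] at h4
      have := congrFun h4 x
      simp only [Matrix.mulVec, dotProduct, Pi.smul_apply, smul_eq_mul] at this
      exact this.symm
    have e2 : |c x| ≤ |Δ * c x| := by
      rw [abs_mul]
      have : 1 ≤ |Δ| := Int.one_le_abs hdet
      nlinarith [abs_nonneg (c x)]
    refine e2.trans ?_
    rw [e1]
    refine (Finset.abs_sum_le_sum_abs _ _).trans ?_
    have : ∀ y ∈ (Finset.univ : Finset I), |G.adjugate x y * h y| ≤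
        X * (m * (B * (B + k * (X * B)))) := by
      intro y _
      rw [abs_mul]
      exact mul_le_mul (hadj x y) (hh y) (abs_nonneg _) (by linarith)
    refine (Finset.sum_le_card_nsmul _ _ _ this).trans ?_
    rw [nsmul_eq_mul]
    have hc : (((Finset.univ : Finset I).card : ℕ) : ℤ) ≤ k := by
      rw [Finset.card_univ]; exact_mod_cast hcardI
    exact mul_le_mul_of_nonneg_right hc (by positivity)
  have hfin1 : k * (X * (m * (B * (B + k * (X * B))))) ≤ 2 * (k : ℤ) ^ 2 * m * B ^ 2 * X ^ 2 := by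
    have e1 : B + k * (X * B) ≤ 2 * (k * (X * B)) := by
      have : 1 * B ≤ (k * X) * B := mul_le_mul_of_nonneg_right (by nlinarith) (by linarith)
      nlinarith
    have e2 : B * (B + k * (X * B)) ≤ B * (2 * (k * (X * B))) :=
      mul_le_mul_of_nonneg_left e1 (by linarith)
    have e3 : m * (B * (B + k * (X * B))) ≤ m * (B * (2 * (k * (X * B)))) :=
      mul_le_mul_of_nonneg_left e2 (by linarith)
    have e4 := mul_le_mul_of_nonneg_left e3 (show (0 : ℤ) ≤ X by linarith)
    have e5 := mul_le_mul_of_nonneg_left e4 (show (0 : ℤ) ≤ k by linarith)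
    refine e5.trans (le_of_eq ?_)
    ring
  have hfin2 : X ≤ 2 * (k : ℤ) ^ 2 * m * B ^ 2 * X ^ 2 := by
    have e1 : (1 : ℤ) ≤ 2 * (k : ℤ) ^ 2 * m * B ^ 2 := by
      have f1 : (1 : ℤ) ≤ (k : ℤ) ^ 2 := one_le_pow₀ hk1
      have f2 : (1 : ℤ) ≤ B ^ 2 := one_le_pow₀ hB1
      have f3 : (1 : ℤ) ≤ (k : ℤ) ^ 2 * m := by nlinarith
      have f4 : (1 : ℤ) ≤ (k : ℤ) ^ 2 * m * B ^ 2 := by nlinarith
      nlinarith
    have e2 : X ≤ X ^ 2 := by nlinarith
    have e3 : (0 : ℤ) ≤ X ^ 2 := by positivity
    nlinarith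
  intro j
  by_cases hj : j ∈ I
  · exact (hin ⟨j, hj⟩).trans hfin1
  · exact (hout j hj).trans hfin2

end

end Pool.Agent.H13HP
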