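import Mathlib

/-!
Walks in a digraph whose edges are labelled by letters, with their letter counts and a set of
visited vertices; the multiset of the letter counts of the lazy walks of given length.
-/

set_option autoImplicit false

namespace Pool.Agent.H13HP

section

variable {L V : Type*} [DecidableEq L]

/-- `Walk E p q v S`: there is a walk from `p` to `q` with letter counts `v` which visits all
elements of `S`. -/
inductive Walk (E : L → V → V → Prop) : V → V → (L → ℕ) → Set V → Prop
  | nil (p : V) (S : Set V) (h : S ⊆ {p}) : Walk E p p 0 S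
  | cons (i : L) (p q r : V) (v : L → ℕ) (S T : Set V) (h : E i p q) (w : Walk E q r v S)
      (hT : T ⊆ insert p S) : Walk E p r (v + Pi.single i 1) T

variable {E : L → V → V → Prop}

theorem Walk.weaken {p q : V} {v : L → ℕ} {S T : Set V} (h : Walk E p q v S) (hT : T ⊆ S) :
    Walk E p q v T := by
  cases h with
  | nil _ _ h => exact Walk.nil _ _ (hT.trans h)
  | cons i _ q' _ v S' _ h w h2 => exact Walk.cons i _ q' _ v S' T h w (hT.trans h2)

theorem Walk.start {p q : V} {v : L → ℕ} {S : Set V} (h : Walk E p q v S) :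
    Walk E p q v (insert p S) := by
  cases h with
  | nil _ _ h => exact Walk.nil _ _ (Set.insert_subset (Set.mem_singleton _) h)
  | cons i _ q' _ v S' _ h w h2 =>
    exact Walk.cons i _ q' _ v S' _ h w (Set.insert_subset (Set.mem_insert _ _) h2)

theorem Walk.append {p q r : V} {v u : L → ℕ} {S T : Set V} (h : Walk E p q v S)
    (h2 : Walk E q r u T) : Walk E p r (v + u) (S ∪ T) := by
  induction h with
  | nil p S h =>
    rw [zero_add]
    exact h2.start.weaken (Set.union_subset (fun x hx => Set.mem_insert_iff.mpr (Or.inl (h hx)))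
      (Set.subset_insert _ _))
  | cons i p q' r' v S' T' h w hT ih =>
    have := Walk.cons i p q' r _ _ (T' ∪ T) h (ih h2) (by
      intro x hx
      rcases hx with hx | hx
      · rcases hT hx with h | h
        · exact Or.inl h
        · exact Or.inr (Or.inl h)
      · exact Or.inr (Or.inr hx))
    rwa [add_right_comm] at this

theorem Walk.ins {p q r : V} {v u : L → ℕ} {S T : Set V} (h : Walk E p q v S) (hr : r ∈ S)
    (h2 : Walk E r r u T) : Walk E p q (v + u) (S ∪ T) := by
  induction h with
  | nil p S h =>
    have hrp : r = p := h hr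
    subst hrp
    exact (Walk.nil r S h).append h2
  | cons i p q' r' v S' T' h w hT ih =>
    rcases hT hr with hrp | hrS
    · subst hrp
      have h3 := h2.append (Walk.cons i r q' r' v S' T' h w hT)
      rw [add_comm, Set.union_comm]
      exact h3
    · have h3 := Walk.cons i p q' r' _ _ (T' ∪ T) h (ih hrS) (by
        intro x hx
        rcases hx with hx | hx
        · rcases hT hx with h | h
          · exact Or.inl h
          · exact Or.inr (Or.inl h)
        · exact Or.inr (Or.inr hx))
      rwa [add_right_comm] at h3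

theorem Walk.msum {r : V} (M : Multiset (L → ℕ)) (h : ∀ v ∈ M, Walk E r r v ∅) :
    Walk E r r M.sum ∅ := by
  induction M using Multiset.induction_on with
  | empty => simpa using Walk.nil (E := E) r ∅ (by simp)
  | cons a s ih =>
    rw [Multiset.sum_cons]
    have := (h a (Multiset.mem_cons_self a s)).append
      (ih fun v hv => h v (Multiset.mem_cons_of_mem hv))
    simpa using this

theorem Walk.insSum {p q : V} {v : L → ℕ} (h : Walk E p q v Set.univ) (S : Finset V)
    (u : V → L → ℕ) (hu : ∀ r ∈ S, Walk E r r (u r) ∅) :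
    Walk E p q (v + ∑ r ∈ S, u r) Set.univ := by
  classical
  induction S using Finset.induction_on with
  | empty => simpa using h
  | insert a s ha ih =>
    rw [Finset.sum_insert ha, add_comm (u a), ← add_assoc]
    have := (ih fun r hr => hu r (Finset.mem_insert_of_mem hr)).ins (Set.mem_univ a)
      (hu a (Finset.mem_insert_self a s))
    simpa using this

theorem Walk.nsmul {r : V} {v : L → ℕ} (h : Walk E r r v ∅) (k : ℕ) : Walk E r r (k • v) ∅ := by
  induction k with
  | zero => simpa using Walk.nil (E := E) r ∅ (by simp)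
  | succ k ih =>
    rw [succ_nsmul]
    simpa using ih.append h

end

section

variable {L V : Type*} [DecidableEq L] [Fintype L] [DecidableEq V] [Fintype V]

open Classical in
/-- letter counts of the lazy walks of length `k` from `p` to `q` -/
noncomputable def LW (E : L → V → V → Prop) : ℕ → V → V → Multiset (L → ℕ)
  | 0, p, q => if p = q then {0} else 0
  | k + 1, p, q => LW E k p q + ∑ i : L, ∑ p' : V,
      if E i p p' then (LW E k p' q).map (fun v => v + Pi.single i 1) else 0

open Classical in
/-- pattern matrix of a letter -/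
noncomputable def pat (E : L → V → V → Prop) (i : L) : Matrix V V ℕ :=
  Matrix.of fun p q => if E i p q then 1 else 0

variable {E : L → V → V → Prop}

theorem mem_LW_zero {p q : V} {v : L → ℕ} : v ∈ LW E 0 p q ↔ p = q ∧ v = 0 := by
  unfold LW
  split_ifs with h
  · simp [h]
  · simp [h]

theorem mem_LW_succ {k : ℕ} {p q : V} {v : L → ℕ} : v ∈ LW E (k + 1) p q ↔
    v ∈ LW E k p q ∨ ∃ i p', E i p p' ∧ ∃ u ∈ LW E k p' q, u + Pi.single i 1 = v := by
  conv_lhs => unfold LW
  rw [Multiset.mem_add, Multiset.mem_sum]
  refine or_congr Iff.rfl ⟨?_, ?_⟩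
  · rintro ⟨i, _, h⟩
    rw [Multiset.mem_sum] at h
    obtain ⟨p', _, h⟩ := h
    split_ifs at h with hE
    · exact ⟨i, p', hE, Multiset.mem_map.mp h⟩
    · simp at h
  · rintro ⟨i, p', hE, h⟩
    refine ⟨i, Finset.mem_univ _, ?_⟩
    rw [Multiset.mem_sum]
    refine ⟨p', Finset.mem_univ _, ?_⟩
    rw [if_pos hE]
    exact Multiset.mem_map.mpr h

theorem LW_append {j k : ℕ} {p q r : V} {v u : L → ℕ} (h : v ∈ LW E j p q)
    (h2 : u ∈ LW E k q r) : v + u ∈ LW E (j + k) p r := by
  induction j generalizing p v with
  | zero =>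
    obtain ⟨rfl, rfl⟩ := mem_LW_zero.mp h
    simpa using h2
  | succ j ih =>
    rw [show j + 1 + k = (j + k) + 1 by ring, mem_LW_succ]
    rcases mem_LW_succ.mp h with h | ⟨i, p', hE, w, hw, rfl⟩
    · exact Or.inl (ih h)
    · exact Or.inr ⟨i, p', hE, w + u, ih hw, by rw [add_right_comm]⟩

theorem LW_mono {j k : ℕ} (hjk : j ≤ k) {p q : V} {v : L → ℕ} (h : v ∈ LW E j p q) :
    v ∈ LW E k p q := by
  induction k, hjk using Nat.le_induction with
  | base => exact h
  | succ k _ ih => exact mem_LW_succ.mpr (Or.inl ih)

theorem LW_edge {i : L} {p q : V} (h : E i p q) : (Pi.single i 1 : L → ℕ) ∈ LW E 1 p q := by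
  rw [show (1 : ℕ) = 0 + 1 by norm_num, mem_LW_succ]
  exact Or.inr ⟨i, q, h, 0, mem_LW_zero.mpr ⟨rfl, rfl⟩, by simp⟩

theorem LW_walk {k : ℕ} {p q : V} {v : L → ℕ} (h : v ∈ LW E k p q) : Walk E p q v ∅ := by
  induction k generalizing p v with
  | zero =>
    obtain ⟨rfl, rfl⟩ := mem_LW_zero.mp h
    exact Walk.nil _ _ (by simp)
  | succ k ih =>
    rcases mem_LW_succ.mp h with h | ⟨i, p', hE, w, hw, rfl⟩
    · exact ih h
    · exact Walk.cons i p p' q w ∅ ∅ hE (ih hw) (by simp)

theorem LW_le {k : ℕ} {p q : V} {v : L → ℕ} (h : v ∈ LW E k p q) : ∑ i, v i ≤ k := by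
  induction k generalizing p v with
  | zero =>
    obtain ⟨rfl, rfl⟩ := mem_LW_zero.mp h
    simp
  | succ k ih =>
    rcases mem_LW_succ.mp h with h | ⟨i, p', hE, w, hw, rfl⟩
    · exact (ih h).trans (Nat.le_succ k)
    · have := ih hw
      simp only [Pi.add_apply, Finset.sum_add_distrib, Finset.sum_pi_single', Finset.mem_univ,
        if_true]
      have h2 : ∑ x, (Pi.single i 1 : L → ℕ) x = 1 := by simp
      omega

/-- lazy walks shorter than the number of vertices reach everything -/
theorem LW_reach (hE : ∀ p q, ∃ v, Walk E p q v ∅) (p q : V) :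
    ∃ v, v ∈ LW E (Fintype.card V - 1) p q := by
  classical
  let R : ℕ → Finset V := fun k => Finset.univ.filter fun q => ∃ v, v ∈ LW E k p q
  have hRmem : ∀ k q, q ∈ R k ↔ ∃ v, v ∈ LW E k p q := by intro k q; simp [R]
  have hclosed : ∀ k, R (k + 1) = R k → R k = Finset.univ := by
    intro k hk
    have h1 : ∀ a b v S, Walk E a b v S → a ∈ R k → b ∈ R k := by
      intro a b v S h
      induction h with
      | nil => exact id
      | cons i a a' b v S T hE w hT ih =>
        intro ha
        apply ih
        rw [← hk, hRmem]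
        obtain ⟨v, hv⟩ := (hRmem _ _).mp ha
        exact ⟨_, LW_append hv (LW_edge hE)⟩
    have hp : p ∈ R k := (hRmem _ _).mpr ⟨0, LW_mono (Nat.zero_le k) (mem_LW_zero.mpr ⟨rfl, rfl⟩)⟩
    ext b
    simp only [Finset.mem_univ, iff_true]
    obtain ⟨v, hv⟩ := hE p b
    exact h1 p b v ∅ hv hp
  have hsub : ∀ k, R k ⊆ R (k + 1) := by
    intro k x hx
    obtain ⟨v, hv⟩ := (hRmem _ _).mp hx
    exact (hRmem _ _).mpr ⟨v, LW_mono (Nat.le_succ k) hv⟩
  have hcard : ∀ k, R k = Finset.univ ∨ k + 1 ≤ (R k).card := by
    intro k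
    induction k with
    | zero =>
      right
      have hp : p ∈ R 0 := (hRmem _ _).mpr ⟨0, mem_LW_zero.mpr ⟨rfl, rfl⟩⟩
      exact Finset.card_pos.mpr ⟨p, hp⟩
    | succ k ih =>
      by_cases hu : R (k + 1) = Finset.univ
      · exact Or.inl hu
      · right
        have hne : R k ≠ Finset.univ := fun h =>
          hu (Finset.eq_univ_of_forall fun x => hsub k (h ▸ Finset.mem_univ x))
        have h1 := ih.resolve_left hne
        have h2 : R k ⊂ R (k + 1) := by
          refine lt_of_le_of_ne (hsub k) fun h => hne (hclosed k h.symm)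
        have := Finset.card_lt_card h2
        omega
  have hn : 0 < Fintype.card V := Fintype.card_pos_iff.mpr ⟨p⟩
  have : R (Fintype.card V - 1) = Finset.univ := by
    rcases hcard (Fintype.card V - 1) with h | h
    · exact h
    · apply Finset.eq_univ_of_card
      have := Finset.card_le_univ (R (Fintype.card V - 1))
      omega
  exact (hRmem _ _).mp (this ▸ Finset.mem_univ q)

/-- sum of the letter counts of the closed lazy walks of length `2 n` at `r` -/
noncomputable def cyc (E : L → V → V → Prop) (r : V) : L → ℕ :=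
  (LW E (2 * Fintype.card V) r r).sum

/-- sum of the letter counts of all closed lazy walks of length `2 n` -/
noncomputable def KK (E : L → V → V → Prop) : L → ℕ := ∑ r, cyc E r

theorem cyc_split {r : V} {v : L → ℕ} (hv : v ∈ LW E (2 * Fintype.card V) r r) :
    ∃ u, cyc E r = v + u ∧ Walk E r r u ∅ := by
  obtain ⟨M, hM⟩ := Multiset.exists_cons_of_mem hv
  refine ⟨M.sum, ?_, ?_⟩
  · unfold cyc; rw [hM, Multiset.sum_cons]
  · exact Walk.msum M fun u hu => LW_walk (k := 2 * Fintype.card V)
      (hM ▸ Multiset.mem_cons_of_mem hu)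

theorem cyc_walk (r : V) : Walk E r r (cyc E r) ∅ :=
  Walk.msum _ fun _ hu => LW_walk hu

theorem cyc_visit (hE : ∀ p q, ∃ v, Walk E p q v ∅) (r s : V) : Walk E r r (cyc E r) {s} := by
  obtain ⟨v1, h1⟩ := LW_reach hE r s
  obtain ⟨v2, h2⟩ := LW_reach hE s r
  have h3 := LW_mono (k := 2 * Fintype.card V) (by omega) (LW_append h1 h2)
  obtain ⟨u, hu, hw⟩ := cyc_split h3
  rw [hu]
  have h4 : Walk E s r v2 {s} := by simpa using (LW_walk h2).start
  have h5 := ((LW_walk h1).append h4).append hw
  simpa using h5

theorem cyc_univ (hE : ∀ p q, ∃ v, Walk E p q v ∅) (r : V) :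
    Walk E r r (Fintype.card V • cyc E r) Set.univ := by
  have h : ∀ S : Finset V, Walk E r r (S.card • cyc E r) (S : Set V) := by
    intro S
    induction S using Finset.induction_on with
    | empty => simpa using Walk.nil (E := E) r ∅ (by simp)
    | insert a s ha ih =>
      rw [Finset.card_insert_of_notMem ha, add_smul, one_smul]
      have := ih.append (cyc_visit hE r a)
      simpa using this
  have := h Finset.univ
  simpa [Finset.card_univ] using this

theorem KK_walk (hE : ∀ p q, ∃ v, Walk E p q v ∅) (p : V) (t : ℕ) :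
    Walk E p p ((Fintype.card V + t) • KK E) Set.univ := by
  have h1 := (cyc_univ hE p).insSum (Finset.univ.erase p)
    (fun r => Fintype.card V • cyc E r) (fun r _ => (cyc_walk r).nsmul _)
  have e1 : Fintype.card V • cyc E p + ∑ r ∈ Finset.univ.erase p, Fintype.card V • cyc E r =
      Fintype.card V • KK E := by
    rw [KK, Finset.smul_sum]
    exact Finset.add_sum_erase _ (fun r => Fintype.card V • cyc E r) (Finset.mem_univ p)
  rw [e1] at h1
  have h2 := h1.insSum Finset.univ (fun r => t • cyc E r) (fun r _ => (cyc_walk r).nsmul _)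
  have e2 : Fintype.card V • KK E + ∑ r, t • cyc E r = (Fintype.card V + t) • KK E := by
    rw [add_smul, ← Finset.smul_sum]; rfl
  rwa [e2] at h2

theorem edge_rev (hE : ∀ p q, ∃ v, Walk E p q v ∅) {i : L} {p q : V} (h : E i p q) :
    ∃ u, u + Pi.single i 1 = (Fintype.card V + 1) • KK E ∧ Walk E q p u ∅ := by
  obtain ⟨v, hv⟩ := LW_reach hE q p
  have hn : 0 < Fintype.card V := Fintype.card_pos_iff.mpr ⟨p⟩
  have h3 := LW_mono (k := 2 * Fintype.card V) (by omega) (LW_append (LW_edge h) hv)
  obtain ⟨u, hu, hw⟩ := cyc_split h3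
  have h4 : Walk E q p (v + u) ∅ := by simpa using (LW_walk hv).append hw
  have h5 : Walk E q p (v + u + (Fintype.card V + 0) • KK E) Set.univ := by
    simpa using h4.append (KK_walk hE p 0)
  have h6 := h5.insSum (Finset.univ.erase p) (fun r => cyc E r) (fun r _ => cyc_walk r)
  refine ⟨_, ?_, h6.weaken (Set.empty_subset _)⟩
  have e1 : cyc E p + ∑ r ∈ Finset.univ.erase p, cyc E r = KK E :=
    Finset.add_sum_erase _ (fun r => cyc E r) (Finset.mem_univ p)
  have e2 : (Fintype.card V + 1) • KK E =
      Fintype.card V • KK E + (cyc E p + ∑ r ∈ Finset.univ.erase p, cyc E r) := by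
    rw [e1, add_smul, one_smul]
  rw [e2, hu, add_zero]
  abel

theorem walk_rev (hE : ∀ p q, ∃ v, Walk E p q v ∅) {p q : V} {v : L → ℕ} {S : Set V}
    (h : Walk E p q v S) :
    ∃ u, u + v = ((Fintype.card V + 1) * ∑ i, v i) • KK E ∧ Walk E q p u ∅ := by
  induction h with
  | nil p S h => exact ⟨0, by simp, Walk.nil _ _ (by simp)⟩
  | cons i p q' r v S T h w hT ih =>
    obtain ⟨u, hu, hw⟩ := ih
    obtain ⟨u', hu', hw'⟩ := edge_rev hE h
    refine ⟨u + u', ?_, by simpa using hw.append hw'⟩
    have e1 : u + u' + (v + Pi.single i 1) = (u + v) + (u' + Pi.single i 1) := by abel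
    have e2 : ∑ x, (Pi.single i 1 : L → ℕ) x = 1 := by simp
    rw [e1, hu, hu', ← add_smul]
    congr 1
    simp only [Pi.add_apply, Finset.sum_add_distrib]
    rw [e2]
    ring

/-- trace formula -/
theorem card_LW (k : ℕ) (p q : V) :
    (LW E k p q).card = ((1 + ∑ i, pat E i) ^ k) p q := by
  induction k generalizing p with
  | zero =>
    unfold LW
    rw [pow_zero, Matrix.one_apply]
    split_ifs <;> simp
  | succ k ih =>
    unfold LW
    rw [pow_succ', add_mul, one_mul, Matrix.add_apply, Multiset.card_add, ih, Finset.sum_mul,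
      Matrix.sum_apply, Multiset.card_sum]
    congr 1
    refine Finset.sum_congr rfl fun i _ => ?_
    rw [Multiset.card_sum, Matrix.mul_apply]
    refine Finset.sum_congr rfl fun p' _ => ?_
    have hp : pat E i p p' = (open Classical in if E i p p' then 1 else 0) := rfl
    rw [hp]
    split_ifs with h
    · rw [Multiset.card_map, ih, one_mul]
    · simp

theorem sum_LW (l : L) (k : ℕ) : ∃ T : Matrix V V ℕ, (∀ p q, (LW E k p q).sum l = T p q) ∧
    ∀ j, Matrix.trace ((1 + ∑ i, pat E i) ^ j * T) =
      k * Matrix.trace (pat E l * (1 + ∑ i, pat E i) ^ (k + j - 1)) := by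
  induction k with
  | zero =>
    refine ⟨0, fun p q => ?_, fun j => by simp⟩
    unfold LW
    split_ifs <;> simp
  | succ k ih =>
    obtain ⟨T, hT, htr⟩ := ih
    set P := (1 + ∑ i, pat E i) with hP
    refine ⟨P * T + pat E l * P ^ k, fun p q => ?_, fun j => ?_⟩
    · unfold LW
      rw [Matrix.add_apply]
      conv_rhs => rw [hP, add_mul, one_mul, Matrix.add_apply, Finset.sum_mul, Matrix.sum_apply]
      rw [Multiset.sum_add, Pi.add_apply, hT, add_assoc]
      congr 1
      have h1 : (∑ i : L, ∑ p' : V, (open Classical in if E i p p' then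
          (LW E k p' q).map (fun v => v + Pi.single i 1) else 0) : Multiset (L → ℕ)).sum l =
          ∑ i : L, ∑ p' : V, (pat E i p p' * (T p' q + (if i = l then 1 else 0) * (P ^ k) p' q)) := by
        rw [← Multiset.coe_sumAddMonoidHom, map_sum, Finset.sum_apply]
        refine Finset.sum_congr rfl fun i _ => ?_
        rw [map_sum, Finset.sum_apply]
        refine Finset.sum_congr rfl fun p' _ => ?_
        have hp : pat E i p p' = (open Classical in if E i p p' then 1 else 0) := rfl
        rw [hp]
        have hc := card_LW (E := E) k p' q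
        rw [← hP] at hc
        simp only [Multiset.coe_sumAddMonoidHom]
        split_ifs with h h2 h2
        · subst h2
          rw [one_mul, one_mul, Multiset.sum_map_add, Pi.add_apply, Multiset.map_id', hT,
            Multiset.map_const', Multiset.sum_replicate, hc]
          simp
        · rw [one_mul, zero_mul, add_zero, Multiset.sum_map_add, Pi.add_apply, Multiset.map_id', hT,
            Multiset.map_const', Multiset.sum_replicate]
          simp [Pi.single_apply, Ne.symm h2, eq_comm]
        · simp
        · simp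
      rw [h1]
      have h2 : ∀ i : L, ∑ p' : V, (pat E i p p' * (T p' q + (if i = l then 1 else 0) * (P ^ k) p' q)) =
          (pat E i * T) p q + (if i = l then (pat E l * P ^ k) p q else 0) := by
        intro i
        rw [Matrix.mul_apply]
        split_ifs with h
        · subst h
          rw [Matrix.mul_apply, ← Finset.sum_add_distrib]
          exact Finset.sum_congr rfl fun _ _ => by ring
        · rw [add_zero]
          exact Finset.sum_congr rfl fun _ _ => by ring
      rw [Finset.sum_congr rfl fun i _ => h2 i, Finset.sum_add_distrib]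
      congr 1
      simp
      rw [hP]
    · rw [mul_add, Matrix.trace_add, ← mul_assoc, ← pow_succ, htr (j + 1)]
      have e1 : Matrix.trace (P ^ j * (pat E l * P ^ k)) = Matrix.trace (pat E l * P ^ (k + j)) := by
        rw [Matrix.trace_mul_comm, mul_assoc, ← pow_add]
      rw [e1, show k + (j + 1) - 1 = k + j by omega, show k + 1 + j - 1 = k + j by omega]
      push_cast
      ring

theorem KK_eq (l : L) : KK E l = 2 * Fintype.card V *
    Matrix.trace (pat E l * (1 + ∑ i, pat E i) ^ (2 * Fintype.card V - 1)) := by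
  obtain ⟨T, hT, htr⟩ := sum_LW (E := E) l (2 * Fintype.card V)
  have h1 : KK E l = Matrix.trace T := by
    unfold KK Matrix.trace cyc
    rw [Finset.sum_apply]
    exact Finset.sum_congr rfl fun r _ => hT r r
  have h2 := htr 0
  rw [pow_zero, one_mul] at h2
  rw [h1, h2, add_zero]

end

end Pool.Agent.H13HP
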