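import Mathlib
import Pool.Agent.H13HP.Small
import Pool.Agent.H13HP.Walk

/-!
If some vector is the vector of letter counts of a walk from `p` to `q` for all `p, q`, then so are
all multiples `D • KK E` with `D` at least an explicit bound.
-/

set_option autoImplicit false

namespace Pool.Agent.H13HP

open scoped Nat

section

variable {L V : Type*} [DecidableEq L] [Fintype L] [DecidableEq V] [Fintype V]
variable {E : L → V → V → Prop}

/-- integer version of a vector -/
def zc (v : L → ℕ) : L → ℤ := fun l => (v l : ℤ)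

theorem zc_add (v u : L → ℕ) : zc (v + u) = zc v + zc u := by
  funext l; simp [zc]

theorem zc_smul (k : ℕ) (v : L → ℕ) : zc (k • v) = (k : ℤ) • zc v := by
  funext l; simp [zc]

theorem zc_inj {v u : L → ℕ} (h : zc v = zc u) : v = u := by
  funext l; have := congrFun h l; simpa [zc] using this

/-- the bound -/
def bnd (m n : ℕ) : ℕ :=
  n + 16 * (m * n ^ 2 + n) ^ 3 * m * n ^ 3 * (n + 1) *
    ((m * n ^ 2 + n)! * (m * (2 * n * (2 * n))) ^ (m * n ^ 2 + n)) ^ 2

theorem main_walk (α : L → ℕ) (hα : ∀ p q, Walk E p q α ∅) (hm : 1 ≤ Fintype.card L) (D : ℕ)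
    (hD : bnd (Fintype.card L) (Fintype.card V) ≤ D) (p q : V) :
    Walk E p q (D • KK E) ∅ := by
  classical
  set n := Fintype.card V with hn
  set m := Fintype.card L with hmm
  have hn1 : 1 ≤ n := Fintype.card_pos_iff.mpr ⟨p⟩
  have hE : ∀ p q, ∃ v, Walk E p q v ∅ := fun p q => ⟨α, hα p q⟩
  -- base vertex is `p`
  choose s hs using fun x => LW_reach hE p x
  choose r hr using fun x => LW_reach hE x p
  let g : (L × V × V) ⊕ V → L → ℕ := fun j => match j with
    | Sum.inl (i, x, y) => if E i x y then s x + Pi.single i 1 + r y else 0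
    | Sum.inr x => s x + r x
  have hgw : ∀ j, Walk E p p (g j) ∅ := by
    rintro (⟨i, x, y⟩ | x)
    · show Walk E p p (if E i x y then s x + Pi.single i 1 + r y else 0) ∅
      split_ifs with h
      · have h1 := ((LW_walk (hs x)).append (LW_walk (LW_edge h))).append (LW_walk (hr y))
        simpa using h1
      · exact Walk.nil _ _ (by simp)
    · have h1 := (LW_walk (hs x)).append (LW_walk (hr x))
      simpa using h1
  have hsle : ∀ x, ∑ l, s x l ≤ n - 1 := fun x => LW_le (hs x)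
  have hrle : ∀ x, ∑ l, r x l ≤ n - 1 := fun x => LW_le (hr x)
  have hgle : ∀ j, ∑ l, g j l ≤ 2 * n := by
    rintro (⟨i, x, y⟩ | x)
    · show ∑ l, (if E i x y then s x + Pi.single i 1 + r y else 0 : L → ℕ) l ≤ 2 * n
      split_ifs with h
      · have e2 : ∑ x, (Pi.single i 1 : L → ℕ) x = 1 := by simp
        simp only [Pi.add_apply, Finset.sum_add_distrib]
        rw [e2]
        have := hsle x
        have := hrle y
        omega
      · simp
    · show ∑ l, (s x + r x) l ≤ 2 * n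
      simp only [Pi.add_apply, Finset.sum_add_distrib]
      have := hsle x
      have := hrle x
      omega
  let a : (L × V × V) ⊕ V → L → ℤ := fun j => zc (g j)
  let H : Submodule ℤ (L → ℤ) := Submodule.span ℤ (Set.range a)
  have haH : ∀ j, a j ∈ H := fun j => Submodule.subset_span ⟨j, rfl⟩
  have hspan : ∀ x y v S, Walk E x y v S → zc (s x + v + r y) ∈ H := by
    intro x y v S h
    induction h with
    | nil x S h =>
      rw [add_zero]
      exact haH (Sum.inr x)
    | cons i x x' y v S T h w hT ih =>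
      have e1 : zc (s x + (v + Pi.single i 1) + r y) =
          a (Sum.inl (i, x, x')) + zc (s x' + v + r y) - a (Sum.inr x') := by
        have e2 : a (Sum.inl (i, x, x')) = zc (s x + Pi.single i 1 + r x') := by
          show zc (if E i x x' then s x + Pi.single i 1 + r x' else 0) = _
          rw [if_pos h]
        have e3 : a (Sum.inr x') = zc (s x' + r x') := rfl
        rw [e2, e3]
        simp only [zc_add]
        abel
      rw [e1]
      exact H.sub_mem (H.add_mem (haH (Sum.inl (i, x, x'))) ih) (haH (Sum.inr x'))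
  have hαH : zc α ∈ H := by
    have h1 := hspan p p α ∅ (hα p p)
    have h2 := hspan p p 0 ∅ (Walk.nil _ _ (by simp))
    have e1 : zc α = zc (s p + α + r p) - zc (s p + 0 + r p) := by
      simp only [zc_add, add_zero]
      abel
    rw [e1]
    exact H.sub_mem h1 h2
  -- the target vector
  let b : L → ℤ := - zc (s q)
  have hb : b ∈ H := by
    have h1 := hspan q p α ∅ (hα q p)
    have h2 := hspan p p 0 ∅ (Walk.nil _ _ (by simp))
    have h3 := hspan p p α ∅ (hα p p)
    -- `s q + α + r p`, `s p + r p`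
    have h4 : zc (r p) ∈ H := by
      -- closed walk at `p`
      have h5 := hspan p p (r p) ∅ (LW_walk (hr p))
      have e1 : zc (r p) = zc (s p + r p + r p) - zc (s p + 0 + r p) := by
        simp only [zc_add, add_zero]; abel
      rw [e1]; exact H.sub_mem h5 h2
    have e1 : b = zc α + zc (r p) - zc (s q + α + r p) := by
      show - zc (s q) = _
      simp only [zc_add]; abel
    rw [e1]
    exact H.sub_mem (H.add_mem hαH h4) h1
  obtain ⟨c0, hc0⟩ := (Submodule.mem_span_range_iff_exists_fun ℤ).mp hb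
  have hle1 : ∀ (v : L → ℕ) (l : L), v l ≤ ∑ l, v l := fun v l =>
    Finset.single_le_sum (fun _ _ => Nat.zero_le _) (Finset.mem_univ l)
  have hcardJ : Fintype.card ((L × V × V) ⊕ V) = m * n ^ 2 + n := by
    rw [Fintype.card_sum, Fintype.card_prod, Fintype.card_prod]
    ring
  obtain ⟨c, hc, hcb⟩ := small_solution a (2 * n : ℤ)
    (by
      intro j i
      have h1 := (hle1 (g j) i).trans (hgle j)
      show |((g j i : ℕ) : ℤ)| ≤ _
      rw [abs_of_nonneg (by positivity)]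
      exact_mod_cast h1)
    (by
      have : (1 : ℤ) ≤ (n : ℤ) := by exact_mod_cast hn1
      linarith) b
    (by
      intro i
      have h1 := (hle1 (s q) i).trans (hsle q)
      show |- ((s q i : ℕ) : ℤ)| ≤ _
      rw [abs_neg, abs_of_nonneg (by positivity)]
      have : s q i ≤ 2 * n := by omega
      exact_mod_cast this)
    hm (by rw [hcardJ]; omega) c0 hc0 _ rfl
  rw [hcardJ, ← hmm] at hcb
  -- reversed generators
  choose u hu huw using fun j => walk_rev hE (hgw j)
  let y : (L × V × V) ⊕ V → L → ℕ := fun j => if 0 ≤ c j then g j else u j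
  let N : (L × V × V) ⊕ V → ℕ := fun j => (c j).natAbs
  let d : (L × V × V) ⊕ V → ℕ := fun j => if 0 ≤ c j then 0 else N j * ((n + 1) * ∑ l, g j l)
  have hy : ∀ j, zc (N j • y j) = c j • a j + (d j : ℤ) • zc (KK E) := by
    intro j
    rw [zc_smul]
    by_cases hcj : 0 ≤ c j
    · have e1 : y j = g j := if_pos hcj
      have e2 : d j = 0 := if_pos hcj
      rw [e1, e2]
      have e3 : ((N j : ℕ) : ℤ) = c j := Int.natAbs_of_nonneg hcj
      rw [e3]
      simp [a]
    · have e1 : y j = u j := if_neg hcj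
      have e2 : d j = N j * ((n + 1) * ∑ l, g j l) := if_neg hcj
      have e3 : ((N j : ℕ) : ℤ) = - c j := by
        show ((c j).natAbs : ℤ) = _
        omega
      have e4 : zc (u j) = (((n + 1) * ∑ l, g j l : ℕ) : ℤ) • zc (KK E) - a j := by
        rw [← zc_smul, ← hu j, zc_add]; show _ = _ + zc (g j) - zc (g j); abel
      have e5 : ((d j : ℕ) : ℤ) = (- c j) * (((n + 1) * ∑ l, g j l : ℕ) : ℤ) := by
        rw [e2, Nat.cast_mul, e3]
      rw [e1, e4, e5, e3]
      module
  have hyw : ∀ j, Walk E p p (N j • y j) ∅ := by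
    intro j
    apply Walk.nsmul
    show Walk E p p (if 0 ≤ c j then g j else u j) ∅
    split_ifs
    · exact hgw j
    · exact huw j
  have htot : Walk E p p (∑ j, N j • y j) ∅ := by
    have := Walk.msum (E := E) (r := p) (Finset.univ.val.map fun j => N j • y j) (by
      intro v hv
      obtain ⟨j, _, rfl⟩ := Multiset.mem_map.mp hv
      exact hyw j)
    exact this
  let D' : ℕ := ∑ j, d j
  have hsum : ∑ j, N j • y j + s q = D' • KK E := by
    apply zc_inj
    rw [zc_add, zc_smul]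
    have e1 : zc (∑ j, N j • y j) = ∑ j, zc (N j • y j) := by
      funext l; simp [zc, Finset.sum_apply]
    rw [e1, Finset.sum_congr rfl fun j _ => hy j, Finset.sum_add_distrib, hc, ← Finset.sum_smul]
    show - zc (s q) + _ + _ = _
    have e2 : ((D' : ℕ) : ℤ) = ∑ j, (d j : ℤ) := by
      show ((∑ j, d j : ℕ) : ℤ) = _
      push_cast; rfl
    rw [e2]; abel
  -- bound for `D'`
  set X : ℤ := ((m * n ^ 2 + n)! : ℤ) * ((m : ℤ) * (2 * n * (2 * n))) ^ (m * n ^ 2 + n) with hX
  have hNle : ∀ j, (N j : ℤ) ≤ 2 * ((m * n ^ 2 + n : ℕ) : ℤ) ^ 2 * m * (2 * n) ^ 2 * X ^ 2 := by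
    intro j
    have := hcb j
    have e : ((N j : ℕ) : ℤ) = |c j| := Int.natCast_natAbs _
    rw [e]
    exact this
  have hdle : ∀ j, (d j : ℤ) ≤
      2 * ((m * n ^ 2 + n : ℕ) : ℤ) ^ 2 * m * (2 * n) ^ 2 * X ^ 2 * ((n + 1) * (2 * n)) := by
    intro j
    have h0 : (d j : ℤ) ≤ (N j : ℤ) * ((n + 1) * (2 * n)) := by
      have : d j ≤ N j * ((n + 1) * (2 * n)) := by
        show (if 0 ≤ c j then 0 else N j * ((n + 1) * ∑ l, g j l)) ≤ _
        split_ifs
        · exact Nat.zero_le _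
        · exact Nat.mul_le_mul_left _ (Nat.mul_le_mul_left _ (hgle j))
      exact_mod_cast this
    exact h0.trans (mul_le_mul_of_nonneg_right (hNle j) (by positivity))
  have hD'le : D' + n ≤ bnd m n := by
    have h0 : (D' : ℤ) ≤ ((m * n ^ 2 + n : ℕ) : ℤ) *
        (2 * ((m * n ^ 2 + n : ℕ) : ℤ) ^ 2 * m * (2 * n) ^ 2 * X ^ 2 * ((n + 1) * (2 * n))) := by
      have e2 : ((D' : ℕ) : ℤ) = ∑ j, (d j : ℤ) := by
        show ((∑ j, d j : ℕ) : ℤ) = _
        push_cast; rfl
      rw [e2]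
      refine (Finset.sum_le_card_nsmul _ _ _ fun j _ => hdle j).trans ?_
      rw [nsmul_eq_mul, Finset.card_univ, hcardJ]
    have h1 : (D' : ℤ) + n ≤ (bnd m n : ℤ) := by
      refine (add_le_add_left h0 _).trans (le_of_eq ?_)
      unfold bnd
      rw [hX]
      push_cast
      ring
    exact_mod_cast h1
  have hfin : Walk E p q (D' • KK E) ∅ := by
    rw [← hsum]
    simpa using htot.append (LW_walk (hs q))
  have hDD : D' + n ≤ D := hD'le.trans hD
  have h2 := hfin.append ((KK_walk hE q (D - D' - n)).weaken (Set.empty_subset _))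
  rw [← add_smul] at h2
  have e : D' + (Fintype.card V + (D - D' - n)) = D := by omega
  rw [e] at h2
  simpa using h2

end

theorem bnd_aux (m' n' m n k F : ℕ) (hmdef : m = m' + 1) (hndef : n = n' + 1)
    (hk : k = m * n ^ 2 + n) (hF : F = k ! * (m * (2 * n * (2 * n))) ^ k) :
    n + 16 * k ^ 3 * m * n ^ 3 * (n + 1) * F ^ 2 ≤ 2 ^ (32 * m ^ 2 * n ^ 3) := by
  have hm : 1 ≤ m := by omega
  have hn : 1 ≤ n := by omega
  have hm2 : m ≤ 2 ^ m' := by
    have := Nat.lt_two_pow_self (n := m')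
    omega
  have hn2 : n ≤ 2 ^ n' := by
    have := Nat.lt_two_pow_self (n := n')
    omega
  have hk2 : k ≤ 2 * (m * n ^ 2) := by
    have h1 : n * 1 ≤ n * (m * n) := Nat.mul_le_mul_left _ (Nat.mul_pos hm hn)
    have h2 : n * (m * n) = m * n ^ 2 := by ring
    omega
  have hk3 : k ≤ 2 ^ (1 + m' + 2 * n') := by
    calc k ≤ 2 * (m * n ^ 2) := hk2
      _ ≤ 2 * (2 ^ m' * (2 ^ n') ^ 2) := by gcongr
      _ = 2 ^ (1 + m' + 2 * n') := by rw [← pow_mul]; ring
  have hX : F ≤ 2 ^ (8 * m ^ 2 * n ^ 3) := by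
    rw [hF]
    have h1 : k ! ≤ k ^ k := Nat.factorial_le_pow k
    have h2 : m * (2 * n * (2 * n)) ≤ 2 ^ (2 + m' + 2 * n') := by
      calc m * (2 * n * (2 * n)) ≤ 2 ^ m' * (2 * 2 ^ n' * (2 * 2 ^ n')) := by gcongr
        _ = 2 ^ (2 + m' + 2 * n') := by ring
    have h3 : 3 + 2 * m' + 4 * n' ≤ 4 * (m * n) := by
      rw [hmdef, hndef]; nlinarith [Nat.zero_le (m' * n')]
    have h4 : (3 + 2 * m' + 4 * n') * k ≤ 8 * m ^ 2 * n ^ 3 := by
      calc (3 + 2 * m' + 4 * n') * k ≤ (4 * (m * n)) * (2 * (m * n ^ 2)) := Nat.mul_le_mul h3 hk2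
          _ = 8 * m ^ 2 * n ^ 3 := by ring
    calc k ! * (m * (2 * n * (2 * n))) ^ k ≤ k ^ k * (2 ^ (2 + m' + 2 * n')) ^ k :=
          Nat.mul_le_mul h1 (Nat.pow_le_pow_left h2 k)
      _ ≤ (2 ^ (1 + m' + 2 * n')) ^ k * (2 ^ (2 + m' + 2 * n')) ^ k :=
          Nat.mul_le_mul_right _ (Nat.pow_le_pow_left hk3 k)
      _ = 2 ^ ((3 + 2 * m' + 4 * n') * k) := by
          rw [← mul_pow, ← pow_add, ← pow_mul]; congr 1; ring
      _ ≤ 2 ^ (8 * m ^ 2 * n ^ 3) := Nat.pow_le_pow_right (by norm_num) h4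
  have h5 : n + 1 ≤ 2 * 2 ^ n' := by omega
  have e16 : (16 : ℕ) = 2 ^ 4 := by norm_num
  have h4 : 16 * k ^ 3 * m * n ^ 3 * (n + 1) * F ^ 2 ≤
      2 ^ (9 + 4 * m' + 10 * n' - 1 + 2 * (8 * m ^ 2 * n ^ 3)) := by
    calc 16 * k ^ 3 * m * n ^ 3 * (n + 1) * F ^ 2
        ≤ 2 ^ 4 * (2 ^ (1 + m' + 2 * n')) ^ 3 * 2 ^ m' * (2 ^ n') ^ 3 * (2 * 2 ^ n') *
          (2 ^ (8 * m ^ 2 * n ^ 3)) ^ 2 := by
            rw [e16]
            exact Nat.mul_le_mul (Nat.mul_le_mul (Nat.mul_le_mul (Nat.mul_le_mul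
              (Nat.mul_le_mul le_rfl (Nat.pow_le_pow_left hk3 3)) hm2)
              (Nat.pow_le_pow_left hn2 3)) h5) (Nat.pow_le_pow_left hX 2)
      _ = 2 ^ (9 + 4 * m' + 10 * n' - 1 + 2 * (8 * m ^ 2 * n ^ 3)) := by
            have e1 : 9 + 4 * m' + 10 * n' - 1 + 2 * (8 * m ^ 2 * n ^ 3) =
              4 + (1 + m' + 2 * n') * 3 + m' + n' * 3 + (1 + n') + (8 * m ^ 2 * n ^ 3) * 2 := by
              omega
            have e2 : 2 * 2 ^ n' = 2 ^ (1 + n') := by rw [pow_add, pow_one]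
            rw [e1, e2, ← pow_mul, ← pow_mul, ← pow_mul]
            simp only [← pow_add]
  have h6 : n ≤ 2 ^ (9 + 4 * m' + 10 * n' - 1 + 2 * (8 * m ^ 2 * n ^ 3)) :=
    hn2.trans (Nat.pow_le_pow_right (by norm_num) (by omega))
  have h7 : 9 + 4 * m' + 10 * n' ≤ 16 * (m ^ 2 * n ^ 3) := by
    have a3 : m * n ≤ m ^ 2 * n ^ 3 := by
      have : m * n * 1 ≤ m * n * (m * n ^ 2) :=
        Nat.mul_le_mul_left _ (Nat.mul_pos hm (pow_pos hn 2))
      calc m * n = m * n * 1 := by ring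
        _ ≤ m * n * (m * n ^ 2) := this
        _ = m ^ 2 * n ^ 3 := by ring
    have a4 : 9 + 4 * m' + 10 * n' ≤ 16 * (m * n) := by
      rw [hmdef, hndef]; nlinarith [Nat.zero_le (m' * n')]
    exact a4.trans (Nat.mul_le_mul_left _ a3)
  calc n + 16 * k ^ 3 * m * n ^ 3 * (n + 1) * F ^ 2
      ≤ 2 ^ (9 + 4 * m' + 10 * n' - 1 + 2 * (8 * m ^ 2 * n ^ 3)) +
        2 ^ (9 + 4 * m' + 10 * n' - 1 + 2 * (8 * m ^ 2 * n ^ 3)) := Nat.add_le_add h6 h4
    _ = 2 ^ (9 + 4 * m' + 10 * n' - 1 + 2 * (8 * m ^ 2 * n ^ 3) + 1) := by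
        generalize 9 + 4 * m' + 10 * n' - 1 + 2 * (8 * m ^ 2 * n ^ 3) = z
        rw [pow_succ, mul_two]
    _ ≤ 2 ^ (32 * m ^ 2 * n ^ 3) := by
        apply Nat.pow_le_pow_right (by norm_num)
        have e2 : 32 * m ^ 2 * n ^ 3 = 32 * (m ^ 2 * n ^ 3) := by ring
        have e3 : 8 * m ^ 2 * n ^ 3 = 8 * (m ^ 2 * n ^ 3) := by ring
        omega

/-- the bound is at most single exponential in a polynomial -/
theorem bnd_le (m n : ℕ) (hm : 1 ≤ m) (hn : 1 ≤ n) : bnd m n ≤ 2 ^ (32 * m ^ 2 * n ^ 3) :=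
  bnd_aux (m - 1) (n - 1) m n _ _ (by omega) (by omega) rfl rfl

end Pool.Agent.H13HP
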