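import Mathlib
import Pool.Agent.H13HP.Main

set_option autoImplicit false

namespace Pool.Agent.H13HP

section

variable {m n : ℕ}

/-- The Hurwitz product: the sum over all words of length `|α|` in which letter `i` occurs
`α i` times of the corresponding products. -/
noncomputable def hur (A : Fin m → Matrix (Fin n) (Fin n) ℝ) (α : Fin m → ℕ) :
    Matrix (Fin n) (Fin n) ℝ := by
  classical
  exact ∑ w : List.Vector (Fin m) (∑ i, α i) with ∀ i, w.1.count i = α i, (w.1.map A).prod

/-- edges -/
def Ed (A : Fin m → Matrix (Fin n) (Fin n) ℝ) (i : Fin m) (p q : Fin n) : Prop := 0 < A i p q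

variable {A : Fin m → Matrix (Fin n) (Fin n) ℝ}

theorem prod_nonneg (hA : ∀ i p q, 0 ≤ A i p q) (w : List (Fin m)) (p q : Fin n) :
    0 ≤ (w.map A).prod p q := by
  induction w generalizing p with
  | nil => simp [Matrix.one_apply]; split_ifs <;> norm_num
  | cons i w ih =>
    rw [List.map_cons, List.prod_cons, Matrix.mul_apply]
    exact Finset.sum_nonneg fun r _ => mul_nonneg (hA i p r) (ih r)

theorem walk_of_prod (hA : ∀ i p q, 0 ≤ A i p q) (w : List (Fin m)) (p q : Fin n)
    (h : 0 < (w.map A).prod p q) : Walk (Ed A) p q (fun i => w.count i) ∅ := by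
  induction w generalizing p with
  | nil =>
    simp only [List.map_nil, List.prod_nil, Matrix.one_apply] at h
    split_ifs at h with hpq
    · subst hpq
      have : (fun i : Fin m => ([] : List (Fin m)).count i) = 0 := by funext i; simp
      rw [this]
      exact Walk.nil _ _ (by simp)
    · exact absurd h (lt_irrefl _)
  | cons i w ih =>
    rw [List.map_cons, List.prod_cons, Matrix.mul_apply] at h
    obtain ⟨r, _, hr⟩ := Finset.exists_lt_of_sum_lt (f := fun _ => (0 : ℝ)) (s := Finset.univ)
      (by simpa using h)
    have h1 : 0 < A i p r := by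
      rcases (hA i p r).lt_or_eq with h2 | h2
      · exact h2
      · rw [← h2, zero_mul] at hr; exact absurd hr (lt_irrefl _)
    have h2 : 0 < (w.map A).prod r q := by
      rcases (prod_nonneg hA w r q).lt_or_eq with h3 | h3
      · exact h3
      · rw [← h3, mul_zero] at hr; exact absurd hr (lt_irrefl _)
    have h3 := Walk.cons i p r q _ ∅ ∅ h1 (ih r h2) (by simp)
    have e : (fun j => (i :: w).count j) = (fun j => w.count j) + Pi.single i 1 := by
      funext j
      simp only [List.count_cons, Pi.add_apply, Pi.single_apply, beq_iff_eq]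
      congr 1
      by_cases hij : i = j
      · simp [hij]
      · simp [hij, Ne.symm hij, eq_comm]
    rw [e]; exact h3

theorem prod_of_walk (hA : ∀ i p q, 0 ≤ A i p q) {p q : Fin n} {v : Fin m → ℕ}
    {S : Set (Fin n)} (h : Walk (Ed A) p q v S) :
    ∃ w : List (Fin m), (∀ i, w.count i = v i) ∧ 0 < (w.map A).prod p q := by
  induction h with
  | nil p S h => exact ⟨[], by simp, by simp⟩
  | cons i p q' r v S T h w hT ih =>
    obtain ⟨w, hw, hpos⟩ := ih
    refine ⟨i :: w, fun j => ?_, ?_⟩
    · simp only [List.count_cons, Pi.add_apply, Pi.single_apply, beq_iff_eq, hw]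
      congr 1
      by_cases hij : i = j
      · simp [hij]
      · simp [hij, Ne.symm hij, eq_comm]
    · rw [List.map_cons, List.prod_cons, Matrix.mul_apply]
      refine lt_of_lt_of_le (mul_pos h hpos) ?_
      exact Finset.single_le_sum (f := fun x => A i p x * (w.map A).prod x r)
        (fun x _ => mul_nonneg (hA i p x) (prod_nonneg hA w x r)) (Finset.mem_univ q')

theorem hur_pos_iff (hA : ∀ i p q, 0 ≤ A i p q) (α : Fin m → ℕ) (p q : Fin n) :
    0 < hur A α p q ↔ Walk (Ed A) p q α ∅ := by
  classical
  unfold hur
  rw [Matrix.sum_apply]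
  constructor
  · intro h
    obtain ⟨w, hw, hr⟩ := Finset.exists_lt_of_sum_lt (f := fun _ => (0 : ℝ))
      (s := Finset.univ.filter fun w : List.Vector (Fin m) (∑ i, α i) =>
        ∀ i, w.1.count i = α i) (by simpa using h)
    have h1 := walk_of_prod hA w.1 p q hr
    have e : (fun i => w.1.count i) = α := by
      funext i; exact (Finset.mem_filter.mp hw).2 i
    rwa [e] at h1
  · intro h
    obtain ⟨w, hw, hpos⟩ := prod_of_walk hA h
    have hlen : w.length = ∑ i, α i := by
      rw [← Finset.sum_congr rfl fun i _ => hw i]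
      exact (Finset.sum_congr rfl fun i _ => rfl).trans (by
        have := List.sum_toFinset_count_eq_length w
        rw [← this]
        symm
        apply Finset.sum_subset (Finset.subset_univ _)
        intro x _ hx
        rw [List.mem_toFinset] at hx
        exact List.count_eq_zero_of_not_mem hx) |>.symm
    let W : List.Vector (Fin m) (∑ i, α i) := ⟨w, hlen⟩
    refine lt_of_lt_of_le hpos ?_
    exact Finset.single_le_sum (f := fun x : List.Vector (Fin m) (∑ i, α i) =>
      (x.1.map A).prod p q) (fun x _ => prod_nonneg hA x.1 p q)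
      (Finset.mem_filter.mpr ⟨Finset.mem_univ W, hw⟩)

end

end Pool.Agent.H13HP
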